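import Pool.Agent.Lib.MP_308a3a_co.Product

/-! # Planes with a group regular off a line: a bound in terms of the commutator subgroup -/

set_option autoImplicit false

namespace Pool.Agent.Results.MP_308a3a_co.CommutatorBound

/-- Let a finite projective plane of order `n` have a collineation group `G` fixing a line and
sharply transitive on the points off that line. For every prime divisor `q` of `n`, with
`q ^ b` the exact power of `q` dividing `n`, one has `q (n + 1) < |G'| (n + 1 + q ^ (2 b))`. -/
theorem result :
    ∀ (P Ln : Type) [Membership P Ln] [Fintype P] [Fintype Ln]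
      [Configuration.ProjectivePlane P Ln]
      (G : Type) [Group G] [MulAction G P] [MulAction G Ln],
      (∀ (g : G) (p : P) (l : Ln), p ∈ l ↔ g • p ∈ g • l) →
      ∀ ℓ : Ln, (∀ g : G, g • ℓ = ℓ) →
        (∀ p q : P, p ∉ ℓ → q ∉ ℓ → ∃! g : G, g • p = q) →
        ∀ q : ℕ, q.Prime → q ∣ Configuration.ProjectivePlane.order P Ln →
          q * (Configuration.ProjectivePlane.order P Ln + 1)
            < Nat.card (commutator G) * (Configuration.ProjectivePlane.order P Ln + 1
              + (q ^ (Configuration.ProjectivePlane.order P Ln).factorization q) ^ 2) := by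
  intro P Ln _ _ _ _ G _ _ _ hinc ℓ hfix hreg q hq hqn
  classical
  have h : PPN.Reg P G ℓ := ⟨hinc, hfix, hreg⟩
  obtain ⟨o, ho⟩ := PPN.exists_off (P := P) ℓ
  have hfin : Finite G := h.finite ho
  let _ : Fintype G := Fintype.ofFinite G
  exact h.bound hq hqn

end Pool.Agent.Results.MP_308a3a_co.CommutatorBound
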