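import Pool.Agent.Lib.MP_308a3a_co.Hall

/-! # Planes with a group regular off a line: normal nilpotent Hall subgroups -/

set_option autoImplicit false

namespace Pool.Agent.Results.MP_308a3a_co.HallOrbits

/-- Let a finite projective plane of order `n`, not a prime power, have a collineation group `G`
fixing a line `ℓ` and sharply transitive on the points off `ℓ`, and let `H ≠ 1` be a normal
nilpotent Hall subgroup of `G`. Then `G` fixes a point `X0` of `ℓ`, every orbit of `H` on the other
points of `ℓ` has length the square root of the order of `H`, and `H` acts semiregularly on the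
lines which do not pass through `X0`. -/
theorem result :
    ∀ (P Ln : Type) [Membership P Ln] [Fintype P] [Fintype Ln]
      [Configuration.ProjectivePlane P Ln]
      (G : Type) [Group G] [MulAction G P] [MulAction G Ln],
      (∀ (g : G) (p : P) (l : Ln), p ∈ l ↔ g • p ∈ g • l) →
      ∀ ℓ : Ln, (∀ g : G, g • ℓ = ℓ) →
        (∀ p q : P, p ∉ ℓ → q ∉ ℓ → ∃! g : G, g • p = q) →
        ¬ IsPrimePow (Configuration.ProjectivePlane.order P Ln) →
        ∀ H : Subgroup G, H.Normal → Group.IsNilpotent H →
          Nat.Coprime (Nat.card H) H.index → H ≠ ⊥ →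
          ∃ X0 : P, X0 ∈ ℓ ∧ (∀ g : G, g • X0 = X0) ∧
            (∀ X : P, X ∈ ℓ → X ≠ X0 → Nat.card (MulAction.orbit H X) ^ 2 = Nat.card H) ∧
            ∀ l : Ln, X0 ∉ l → ∀ u ∈ H, u • l = l → u = 1 := by
  intro P Ln _ _ _ _ G _ _ _ hinc ℓ hfix hreg hnp H hH hnil hcop hne
  classical
  have h : PPN.Reg P G ℓ := ⟨hinc, hfix, hreg⟩
  obtain ⟨o, ho⟩ := PPN.exists_off (P := P) ℓ
  have hfin : Finite G := h.finite ho
  let _ : Fintype G := Fintype.ofFinite G
  exact h.hall hnp H hcop hne

end Pool.Agent.Results.MP_308a3a_co.HallOrbits
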