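import Pool.Agent.Lib.MP_308a3a_co.NilPrime

/-! # Planes with a nilpotent group regular off a line, commutator subgroup of prime order -/

set_option autoImplicit false

namespace Pool.Agent.Results.MP_308a3a_co.NilpotentPrime

/-- Let a finite projective plane of order `n` have a nilpotent collineation group `G` fixing a
line and sharply transitive on the points off that line, and let the commutator subgroup of `G`
have prime order `p`. Then `n` is a prime power, or `p` is not of the form `2 ^ k + 1` and
`n = p ^ a * m` with `a ≥ 1`, `m > 1` prime to `p`, `(p - 1) m < p ^ a`, and every prime divisor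
`q` of `m` is smaller than `p` and has odd order modulo `p`. -/
theorem result :
    ∀ (P Ln : Type) [Membership P Ln] [Fintype P] [Fintype Ln]
      [Configuration.ProjectivePlane P Ln]
      (G : Type) [Group G] [MulAction G P] [MulAction G Ln],
      (∀ (g : G) (p : P) (l : Ln), p ∈ l ↔ g • p ∈ g • l) →
      ∀ ℓ : Ln, (∀ g : G, g • ℓ = ℓ) →
        (∀ p q : P, p ∉ ℓ → q ∉ ℓ → ∃! g : G, g • p = q) →
        Group.IsNilpotent G → ∀ p : ℕ, p.Prime → Nat.card (commutator G) = p →
        IsPrimePow (Configuration.ProjectivePlane.order P Ln) ∨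
        (∀ k : ℕ, p ≠ 2 ^ k + 1) ∧
          ∃ a m : ℕ, Configuration.ProjectivePlane.order P Ln = p ^ a * m ∧
            1 ≤ a ∧ 1 < m ∧ Nat.Coprime p m ∧ (p - 1) * m < p ^ a ∧
            ∀ q : ℕ, q.Prime → q ∣ m → q < p ∧ Odd (orderOf (q : ZMod p)) := by
  intro P Ln _ _ _ _ G _ _ _ hinc ℓ hfix hreg hnil p hp hG
  classical
  have h : PPN.Reg P G ℓ := ⟨hinc, hfix, hreg⟩
  obtain ⟨o, ho⟩ := PPN.exists_off (P := P) ℓ
  have hfin : Finite G := h.finite ho
  let _ : Fintype G := Fintype.ofFinite G
  exact h.nil_fermat hp hG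

end Pool.Agent.Results.MP_308a3a_co.NilpotentPrime
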