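import Pool.Agent.Lib.MP_308a3a_co.Product

/-! # Planes with a group regular off a line: a `p`-group times an abelian group -/

set_option autoImplicit false

namespace Pool.Agent.Results.MP_308a3a_co.ProductBound

/-- Let a finite projective plane of order `n` have a collineation group `G` fixing a line and
sharply transitive on the points off that line, and let `G` be the direct product of a `p`-group
`P0` and an abelian group. Then `n` is a prime power, or `n = p ^ a * m` with `a ≥ 1`, `m > 1` prime
to `p`, `(p - 1) m < p ^ a`, and `(p - 1) q < p |P0'|` for every prime divisor `q` of `m`. -/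
theorem result :
    ∀ (P Ln : Type) [Membership P Ln] [Fintype P] [Fintype Ln]
      [Configuration.ProjectivePlane P Ln]
      (G : Type) [Group G] [MulAction G P] [MulAction G Ln],
      (∀ (g : G) (p : P) (l : Ln), p ∈ l ↔ g • p ∈ g • l) →
      ∀ ℓ : Ln, (∀ g : G, g • ℓ = ℓ) →
        (∀ p q : P, p ∉ ℓ → q ∉ ℓ → ∃! g : G, g • p = q) →
        ∀ (P0 A0 : Type) [Group P0] [CommGroup A0], Nonempty (G ≃* P0 × A0) →
          ∀ p : ℕ, p.Prime → IsPGroup p P0 →
          IsPrimePow (Configuration.ProjectivePlane.order P Ln) ∨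
          ∃ a m : ℕ, Configuration.ProjectivePlane.order P Ln = p ^ a * m ∧
            1 ≤ a ∧ 1 < m ∧ Nat.Coprime p m ∧ (p - 1) * m < p ^ a ∧
            ∀ q : ℕ, q.Prime → q ∣ m → (p - 1) * q < p * Nat.card (commutator P0) := by
  intro P Ln _ _ _ _ G _ _ _ hinc ℓ hfix hreg P0 A0 _ _ he p hp hP
  classical
  obtain ⟨e⟩ := he
  have h : PPN.Reg P G ℓ := ⟨hinc, hfix, hreg⟩
  obtain ⟨o, ho⟩ := PPN.exists_off (P := P) ℓ
  have hfin : Finite G := h.finite ho
  let _ : Fintype G := Fintype.ofFinite G
  exact h.product e hp hP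

end Pool.Agent.Results.MP_308a3a_co.ProductBound
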